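import Mathlib
import Pool.Agent.Helper62.HN.F

set_option autoImplicit false
open MeasureTheory

namespace Pool.Agent.Results.MP_afc651_an.OrientationPreserving

/-- The real Henon map `f_{c,b}(x,y) = (x^2 + c - b y, x)`. -/
def henon (c b : ℝ) (p : ℝ × ℝ) : ℝ × ℝ := (p.1 ^ 2 + c - b * p.2, p.1)

lemma henon_eq (c b : ℝ) : henon c b = Pool.Helper62.HN.h c (-b) := by
  funext p
  show (p.1 ^ 2 + c - b * p.2, p.1) = (p.1 ^ 2 + c + (-b) * p.2, p.1)
  rw [sub_eq_add_neg, neg_mul]

/-- Orientation preserving case `1/4 ≤ b ≤ 4`: if `4c ≥ (3b-1)(3-b)`, or `b ≤ 1/2` and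
`c > b - 1/2`, or `b ≥ 2` and `c > b - b^2/2`, then the support of every invariant probability
measure consists of fixed points, so it lies in the closure of the set of periodic points. -/
theorem result (c b : ℝ) (hb1 : 1 / 4 ≤ b) (hb2 : b ≤ 4)
    (hc : (3 * b - 1) * (3 - b) ≤ 4 * c ∨ (b ≤ 1 / 2 ∧ b - 1 / 2 < c) ∨
      (2 ≤ b ∧ b - b ^ 2 / 2 < c))
    (μ : Measure (ℝ × ℝ)) [IsProbabilityMeasure μ] (hμ : Measure.map (henon c b) μ = μ) :
    (∀ z ∈ μ.support, henon c b z = z) ∧
      μ.support ⊆ closure (Function.periodicPts (henon c b)) := by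
  have hcont : Continuous (henon c b) := by rw [henon_eq]; exact Pool.Helper62.HN.h_cont c (-b)
  have hae : ∀ᵐ z ∂μ, henon c b z = z := by
    rw [henon_eq] at hμ ⊢
    exact Pool.Helper62.HN.ae_fixed hb1 hb2 hc μ hμ
  have hs := Pool.Helper62.HN.support_sub (f := fun z => henon c b z) (g := fun z => z)
    hcont continuous_id μ hae
  refine ⟨hs, fun z hz => subset_closure ?_⟩
  exact Function.mk_mem_periodicPts (n := 1) (by norm_num) (by
    show (henon c b)^[1] z = z
    exact hs z hz)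

end Pool.Agent.Results.MP_afc651_an.OrientationPreserving
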