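import Mathlib
import Pool.Agent.Helper62.HN.F

set_option autoImplicit false
open MeasureTheory

namespace Pool.Agent.Results.MP_afc651_an.OrientationReversing

/-- The real Henon map `f_{c,b}(x,y) = (x^2 + c - b y, x)`. -/
def henon (c b : ℝ) (p : ℝ × ℝ) : ℝ × ℝ := (p.1 ^ 2 + c - b * p.2, p.1)

lemma henon_eq (c b : ℝ) : henon c b = Pool.Helper62.HN.h c (-b) := by
  funext p
  show (p.1 ^ 2 + c - b * p.2, p.1) = (p.1 ^ 2 + c + (-b) * p.2, p.1)
  rw [sub_eq_add_neg, neg_mul]

/-- Orientation reversing case `b < 0`, `c ≥ -(5/4)(1+b)^2`: the support of every invariant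
probability measure consists of points of period one or two, so it lies in the closure of the
set of periodic points. -/
theorem result (c b : ℝ) (hb : b < 0) (hc : -(5 / 4 * (1 + b) ^ 2) ≤ c)
    (μ : Measure (ℝ × ℝ)) [IsProbabilityMeasure μ] (hμ : Measure.map (henon c b) μ = μ) :
    (∀ z ∈ μ.support, henon c b (henon c b z) = z) ∧
      μ.support ⊆ closure (Function.periodicPts (henon c b)) := by
  have hcont : Continuous (henon c b) := by rw [henon_eq]; exact Pool.Helper62.HN.h_cont c (-b)
  have hae : ∀ᵐ z ∂μ, henon c b (henon c b z) = z := by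
    rw [henon_eq] at hμ ⊢
    exact Pool.Helper62.HN.ae_period_two hb hc μ hμ
  have hs := Pool.Helper62.HN.support_sub (f := fun z => henon c b (henon c b z)) (g := fun z => z)
    (hcont.comp hcont) continuous_id μ hae
  refine ⟨hs, fun z hz => subset_closure ?_⟩
  exact Function.mk_mem_periodicPts (n := 2) (by norm_num) (by
    show (henon c b)^[2] z = z
    exact hs z hz)

end Pool.Agent.Results.MP_afc651_an.OrientationReversing
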